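import Mathlib
import Pool.Agent.H15.G.R_seed8.W609.Rows

set_option autoImplicit false

/-!
# The triangle without a corner: first compressions
-/

namespace Pool.Agent.W609

open Polynomial Pool.Agent.H932R2

/-- Exponents of the monomials of degree between `M` and `M + k`. -/
def trapS (M k : ℕ) : Set (ℕ × ℕ) := {p | M ≤ p.1 + p.2 ∧ p.1 + p.2 ≤ M + k}

theorem mem_trapS {M k i l : ℕ} : ((i, l) : ℕ × ℕ) ∈ trapS M k ↔ M ≤ i + l ∧ i + l ≤ M + k :=
  Iff.rfl

/-- The same set after pushing the rows to the left. -/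
def tallS (M k : ℕ) : Set (ℕ × ℕ) := {p | p.1 ≤ k ∧ p.1 + p.2 ≤ M + k}

theorem mem_tallS {M k i l : ℕ} : ((i, l) : ℕ × ℕ) ∈ tallS M k ↔ i ≤ k ∧ i + l ≤ M + k :=
  Iff.rfl

theorem step_0 {M k B : ℕ} (hB : M + k ≤ B) : DomX B (trapS M k) (tallS M k) := by
  refine domX_of_card fun i q hp => ?_
  rw [mem_tallS] at hp
  refine ⟨Finset.Icc (M - q) (M + k - q), ?_, fun x hx => ?_⟩
  · rw [Nat.card_Icc]
    omega
  · rw [Finset.mem_Icc] at hx
    rw [mem_trapS]
    omega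

/-- The shape after the compression along the lines `i + δ l = const`. -/
def M1T (δ M k : ℕ) : Set (ℕ × ℕ) :=
  {p | p.1 / δ + p.1 % δ + δ * p.2 ≤ M + k ∧ p.1 % δ + δ * p.2 ≤ k}

theorem mem_M1T {δ M k i l : ℕ} : ((i, l) : ℕ × ℕ) ∈ M1T δ M k ↔
    i / δ + i % δ + δ * l ≤ M + k ∧ i % δ + δ * l ≤ k := Iff.rfl

theorem step_1 {δ M k B : ℕ} (hδ : 0 < δ) (hB : M + k ≤ B) :
    DomY δ B (tallS M k) (M1T δ M k) := by
  refine domY_of_block fun i q hp => ?_
  rw [mem_M1T] at hp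
  obtain ⟨a, ha⟩ : ∃ a, a = i / δ := ⟨_, rfl⟩
  obtain ⟨b, hb⟩ : ∃ b, b = i % δ := ⟨_, rfl⟩
  have hi : δ * a + b = i := by rw [ha, hb]; exact Nat.div_add_mod i δ
  rw [← ha, ← hb] at hp
  have hq : q ≤ δ * q := Nat.le_mul_of_pos_left q hδ
  refine ⟨a, by omega, ?_, fun l hl hl' x hx => ?_⟩
  · rw [Nat.mul_add]
    omega
  · rw [mem_tallS]
    obtain ⟨e, rfl⟩ := Nat.exists_eq_add_of_le hl
    have h1 : δ * (a + e) = δ * a + δ * e := by ring
    have he : e ≤ δ * e := Nat.le_mul_of_pos_left e hδ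
    omega

theorem exists_colsT (δ M k q : ℕ) (hδ : 0 < δ) :
    ∃ A : Finset ℕ, A.card = ∑ b ∈ Finset.range δ, (if b + δ * q ≤ k then M + k + 1 - δ * q - b
        else 0) ∧
      ∀ x ∈ A, x / δ + x % δ + δ * q ≤ M + k ∧ x % δ + δ * q ≤ k := by
  classical
  have key : ∀ a b, b < δ → (δ * a + b) / δ = a ∧ (δ * a + b) % δ = b := by
    intro a b hb
    constructor
    · rw [Nat.mul_add_div hδ, Nat.div_eq_of_lt hb, add_zero]
    · rw [Nat.mul_add_mod, Nat.mod_eq_of_lt hb]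
  refine ⟨(rowsF δ fun b => if b + δ * q ≤ k then M + k + 1 - δ * q - b
        else 0).image fun p => δ * p.1 + p.2, ?_, ?_⟩
  · rw [Finset.card_image_of_injOn, card_rowsF]
    rintro ⟨a, b⟩ hp ⟨a', b'⟩ hp' h
    rw [Finset.mem_coe, mem_rowsF] at hp hp'
    simp only at h
    have h1 := key a b hp.1
    have h2 := key a' b' hp'.1
    rw [h] at h1
    rw [Prod.mk.injEq]
    exact ⟨h1.1.symm.trans h2.1, h1.2.symm.trans h2.2⟩
  · intro x hx
    rw [Finset.mem_image] at hx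
    obtain ⟨⟨a, b⟩, hp, rfl⟩ := hx
    rw [mem_rowsF] at hp
    obtain ⟨hb, ha⟩ := hp
    simp only
    rw [(key a b hb).1, (key a b hb).2]
    split_ifs at ha with h
    · omega
    · omega

/-- The number of elements of the rows of `M1T`. -/
def cntT (δ M k q : ℕ) : ℕ :=
  ∑ b ∈ Finset.range δ, (if b + δ * q ≤ k then M + k + 1 - δ * q - b else 0)

theorem step_2 {δ M k B : ℕ} (hδ : 0 < δ) (hB : δ * (M + k) ≤ B) {S : Set (ℕ × ℕ)}
    (hS : ∀ i q, ((i, q) : ℕ × ℕ) ∈ S → i < cntT δ M k q) : DomX B (M1T δ M k) S := by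
  refine domX_of_card fun i q hp => ?_
  obtain ⟨A, hA, hM⟩ := exists_colsT δ M k q hδ
  refine ⟨A, ?_, fun x hx => ⟨?_, hM x hx⟩⟩
  · rw [hA]
    exact hS i q hp
  · have h1 := (hM x hx).1
    refine le_trans ?_ hB
    have h2 := Nat.div_add_mod x δ
    have h3 : δ * (x / δ + x % δ) ≤ δ * (M + k) := Nat.mul_le_mul_left _ (by omega)
    have h4 : x % δ ≤ δ * (x % δ) := Nat.le_mul_of_pos_left _ hδ
    rw [Nat.mul_add] at h3
    omega

theorem cntT_low {δ M k κ r w q : ℕ} (hr : r ≤ δ) (hr0 : 0 < r) (hk : k + 1 = δ * κ + r)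
    (hq : κ = q + w) (hw : 0 < w) :
    cntT δ M k q + cc δ = δ * δ * w + δ * (M + r) := by
  have h1 : cntT δ M k q = cnt δ (M + δ * w + r) := by
    unfold cntT cnt
    refine Finset.sum_congr rfl fun b hb => ?_
    rw [Finset.mem_range] at hb
    subst hq
    have e1 : δ * (q + w) = δ * q + δ * w := by ring
    have e2 : δ ≤ δ * w := Nat.le_mul_of_pos_right δ hw
    rw [if_pos (by omega)]
    omega
  have h2 := cnt_add δ (M + δ * w + r)
  have e2 : δ ≤ δ * w := Nat.le_mul_of_pos_right δ hw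
  rw [YY_zero (by omega), add_zero] at h2
  rw [h1, h2]
  ring

theorem cntT_top {δ M k κ r : ℕ} (hr : r ≤ δ) (hr0 : 0 < r) (hk : k + 1 = δ * κ + r) :
    cntT δ M k κ + cc r = r * (M + r) := by
  have h1 : cntT δ M k κ = cnt r (M + r) := by
    unfold cntT cnt
    rw [← Finset.sum_subset (Finset.range_mono hr)]
    · refine Finset.sum_congr rfl fun b hb => ?_
      rw [Finset.mem_range] at hb
      rw [if_pos (by omega)]
      omega
    · intro b hb hb'
      rw [Finset.mem_range] at hb hb'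
      rw [if_neg (by omega)]
  have h2 := cnt_add r (M + r)
  rw [YY_zero (by omega), add_zero] at h2
  rw [h1, h2]

theorem cc_add (r f : ℕ) : cc (r + f) = cc r + f * r + cc f := by
  have h1 := cc_two (r + f)
  have h2 := cc_two r
  have h3 := cc_two f
  nlinarith

end Pool.Agent.W609
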