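import Mathlib
import Pool.Agent.H15.G.R_seed8.H932R7.Final2
import Pool.Agent.H15.G.R_seed8.W609.Delta

set_option autoImplicit false

/-!
# Ranks on an arbitrary finite set of monomials which can be reached from a balanced shape

The proofs are those of `rank_thr`, `rank_thr2` and `T_R42` of `H932R7`, with the monomials of
degree at most `d` replaced by a set `S` with `StartOK`.
-/

namespace Pool.Agent.W609

open Polynomial Pool.Agent.H932R2 Pool.Agent.H932R3 Pool.Agent.H932R7

/-- Ranks in degree `d`. -/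
theorem rank_thrS (hST : P_STAB) (hX : P_X3) (K : Type) [Field K] [CharZero K]
    (k₁ m : ℕ) (hk₁ : 0 < k₁) (hkm : k₁ ≤ m) (ι : Type) [Fintype ι] (w : ι → ℕ)
    (hw : ∀ a, w a ≤ m) (S : Finset (ℕ × ℕ)) (q : ℕ) (hStart : StartOK K S m)
    (hq : 2 * Aw w < 2 * S.card + q) (hc : Cnq w k₁ 2 q) :
    (Aw w + 2 * (k₁ + 1).choose 3 ≤ S.card → RkS (PF K w) (↑S : Set (ℕ × ℕ)) (Aw w)) ∧
    (S.card + 2 * (k₁ + 1).choose 3 ≤ Aw w →
      RkS (PF K w) (↑S : Set (ℕ × ℕ)) (S.card)) := by
  have hW := T_WST k₁ hk₁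
  constructor
  · intro h
    obtain ⟨δ, hδ⟩ : ∃ δ, S.card = Aw w + δ := ⟨S.card - Aw w, by omega⟩
    obtain ⟨r, u, t, j, hr, hg, hsz, hrm, hpar, hfin⟩ := hStart (PF K w) (hST K ι w)
      (Nhigh w k₁ + (Alow w k₁ + δ) / (k₁ + 1).choose 2)
    exact hfin _ ((hX K k₁ m hk₁ hkm ι w hw q _ r u t j δ hr hg hsz hrm hq hc (by omega)).1
      hδ hpar)
  · intro h
    obtain ⟨δ, hδ⟩ : ∃ δ, Aw w = S.card + δ := ⟨Aw w - S.card, by omega⟩
    obtain ⟨r, u, t, j, hr, hg, hsz, hrm, hpar, hfin⟩ := hStart (PF K w) (hST K ι w)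
      (Nhigh w k₁ +
        (Alow w k₁ - δ + (k₁ + 1).choose 2 - 1) / (k₁ + 1).choose 2)
    exact hfin _ ((hX K k₁ m hk₁ hkm ι w hw q _ r u t j δ hr hg hsz hrm hq hc (by omega)).2
      hδ hpar)

/-- Ranks in every degree. -/
theorem rank_thrS2 (hST : P_STAB) (hX : P_X3) (hTR : P_TR) (K : Type) [Field K]
    [CharZero K] (k₁ m : ℕ) (hk₁ : 0 < k₁) (hkm : k₁ ≤ m) (n : ℕ) (w : Fin n → ℕ)
    (hw : ∀ a, w a ≤ m) (S : Finset (ℕ × ℕ)) (hStart : StartOK K S m)
    (hc : Cnq w k₁ 3 (4 * (k₁ + 1).choose 3 + k₁ * (k₁ + 1))) :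
    (Aw w + 2 * (k₁ + 1).choose 3 ≤ S.card → RkS (PF K w) (↑S : Set (ℕ × ℕ)) (Aw w)) ∧
    (S.card + 2 * (k₁ + 1).choose 3 ≤ Aw w →
      RkS (PF K w) (↑S : Set (ℕ × ℕ)) (S.card)) := by
  classical
  have hk2 : 0 < k₁ * (k₁ + 1) := by positivity
  constructor
  · intro h
    refine (rank_thrS hST hX K k₁ m hk₁ hkm (Fin n) w hw S
      (4 * (k₁ + 1).choose 3 + k₁ * (k₁ + 1)) hStart (by omega) ?_).1 h
    intro a ha
    refine le_trans (Nat.add_le_add_right (Nat.mul_le_mul_left _ (by omega)) _) (hc a ha)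
  · intro h
    obtain ⟨N, hN⟩ : ∃ N, N = S.card := ⟨_, rfl⟩
    obtain ⟨W, hW⟩ : ∃ W, W = 2 * (k₁ + 1).choose 3 := ⟨_, rfl⟩
    have hW4 : 4 * (k₁ + 1).choose 3 = 2 * W := by omega
    rw [hW4] at hc
    rw [← hN, ← hW] at h
    obtain ⟨U, hU1, hU2, hU3⟩ := choose_subset w (fun a => (w a + 1).choose 2) (N + W) h
    have hAU : Aw (fun a : {a // a ∈ U} => w a) = ∑ a ∈ U, (w a + 1).choose 2 := by
      unfold Aw
      exact (Finset.sum_subtype U (fun _ => Iff.rfl) (fun a => (w a + 1).choose 2)).symm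
    have hfil : ∀ κ : ℕ, ∑ b ∈ (Finset.univ : Finset {a // a ∈ U}).filter (fun b => w b.1 < κ),
        (w b.1 + 1).choose 2 = ∑ b ∈ U.filter (fun b => w b < κ), (w b + 1).choose 2 := by
      intro κ
      rw [Finset.sum_filter, Finset.sum_filter]
      exact (Finset.sum_subtype U (fun _ => Iff.rfl)
        (fun a => if w a < κ then (w a + 1).choose 2 else 0)).symm
    have hkey : ∀ a ∈ U, k₁ < w a → w a * (w a + 1) * (w a + 2) + (2 * W + k₁ * (k₁ + 1)) ≤
        2 * ∑ b ∈ U.filter (fun b => w b < w a), (w b + 1).choose 2 := by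
      intro a ha hka
      have h1 := hc a hka
      have h2 := hU3 a ha
      have h3 := R4h.two_choose (w a)
      have h4 : w a * (w a + 1) * (w a + 3) = w a * (w a + 1) * (w a + 2) + w a * (w a + 1) := by
        ring
      omega
    have hwin : 2 * ∑ a ∈ U, (w a + 1).choose 2 < 2 * N + (2 * W + k₁ * (k₁ + 1)) := by
      rcases Finset.eq_empty_or_nonempty U with h | h
      · rw [h, Finset.sum_empty]
        omega
      · obtain ⟨a, ha, hamin⟩ := Finset.exists_min_image U w h
        rcases Nat.lt_or_ge k₁ (w a) with h1 | h1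
        · have h2 := hkey a ha h1
          have h3 : U.filter (fun b => w b < w a) = ∅ := by
            rw [Finset.filter_eq_empty_iff]
            intro b hb
            exact not_lt.2 (hamin b hb)
          rw [h3, Finset.sum_empty] at h2
          omega
        · have h2 := hU2 a ha
          have h3 := R4h.two_choose (w a)
          have h4 : w a * (w a + 1) ≤ k₁ * (k₁ + 1) := Nat.mul_le_mul h1 (by omega)
          omega
    have h' := (rank_thrS hST hX K k₁ m hk₁ hkm {a // a ∈ U} (fun a => w a)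
      (fun a => hw a.1) S (2 * W + k₁ * (k₁ + 1)) hStart (by rw [hAU, ← hN]; exact hwin) (by
        intro a ha
        have h1 := hkey a.1 a.2 ha
        rw [← hfil] at h1
        exact h1)).2 (by rw [hAU, ← hN, ← hW]; exact hU1)
    have h3 := (hTR K {a // a ∈ U} (Fin n) (fun a => w a) w
      ⟨fun a => (a.1.1 : Fin n), fun a b hab => Subtype.ext (Subtype.ext hab)⟩
      (fun a => le_refl _) S).2 _ h'
    exact h3

/-- Ranks near the critical size. -/
def P_R32S : Prop := ∀ (K : Type) [Field K] [CharZero K] (k₀ m : ℕ), 0 < k₀ → k₀ ≤ m →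
  ∀ (ι : Type) [Fintype ι] (w : ι → ℕ), (∀ a, k₀ ≤ w a ∧ w a ≤ m) →
    ∀ S : Finset (ℕ × ℕ), StartOK K S m →
      2 * S.card < 2 * Aw w + k₀ * (k₀ + 1) →
      2 * Aw w < 2 * S.card + k₀ * (k₀ + 1) →
      Cnd w k₀ 2 →
        RkS (PF K w) (↑S : Set (ℕ × ℕ)) (min S.card (Aw w))

theorem T_R32S (hST : P_STAB) (hX : P_X2) : P_R32S := by
  intro K _ _ k₀ m hk₀ hkm ι _ w hw S hStart h1 h2 h3
  obtain ⟨r, u, t, j, hr, hg, hsz, hrm, hpar, hfin⟩ := hStart (PF K w) (hST K ι w)
    (Fintype.card ι)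
  exact hfin _ (hX K k₀ m hk₀ hkm ι w hw S.card r u t j hr hg hsz hrm hpar h1 h2 h3)

/-- Ranks in every degree. -/
def P_R42S : Prop := ∀ (K : Type) [Field K] [CharZero K] (k₀ m : ℕ), 0 < k₀ → k₀ ≤ m →
  ∀ (n : ℕ) (w : Fin n → ℕ), (∀ a, w a = 0 ∨ (k₀ ≤ w a ∧ w a ≤ m)) → Cnd w k₀ 3 →
    ∀ S : Finset (ℕ × ℕ), StartOK K S m →
      RkS (PF K w) (↑S : Set (ℕ × ℕ)) (min S.card (Aw w))

open R4h in
theorem T_R42S (hR3 : P_R32S) (hTR : P_TR) : P_R42S := by
  classical
  intro K _ _ k₀ m hk₀ hkm n w hw hcnd S hStart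
  have hc := R4h.two_choose k₀
  have hq : 0 < k₀ * (k₀ + 1) := by positivity
  set q := k₀ * (k₀ + 1) with hqdef
  set N := S.card with hNdef
  rcases le_total (Aw w) N with hAN | hNA
  · rw [min_eq_right hAN]
    set c := (k₀ + 1).choose 2 with hcdef
    set x := 2 * (N - Aw w) / q with hx
    have hx1 : x * q ≤ 2 * (N - Aw w) := Nat.div_mul_le_self _ _
    have hx2 : 2 * (N - Aw w) < (x + 1) * q := by
      rw [hx]
      exact (Nat.div_lt_iff_lt_mul hq).1 (Nat.lt_succ_self _)
    have hA := Aw_sum w x k₀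
    rw [← hcdef] at hA
    have h2 : 2 * (x * c) = x * q := by rw [← hc]; ring
    have hx3 : (x + 1) * q = x * q + q := by ring
    have h := hR3 K k₀ m hk₀ hkm ({a : Fin n // w a ≠ 0} ⊕ Fin x)
      (Sum.elim (fun a : {a : Fin n // w a ≠ 0} => w a) (fun _ : Fin x => k₀))
      (by
        rintro (a | a)
        · rcases hw a with h | h
          · exact absurd h a.2
          · exact h
        · exact ⟨le_refl _, hkm⟩) S hStart
      (by rw [hA]; omega) (by rw [hA]; omega)
      (by
        rintro (a | a) ha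
        · change k₀ < w a.1 at ha
          have h1 := hcnd a.1 ha
          show w a.1 * (w a.1 + 1) * (w a.1 + 2) + k₀ * (k₀ + 1) ≤ _
          have h3 : w a.1 * (w a.1 + 1) * (w a.1 + 2) ≤ w a.1 * (w a.1 + 1) * (w a.1 + 3) :=
            Nat.mul_le_mul_left _ (by omega)
          have h4 : ∑ b ∈ Finset.univ.filter (fun b => w b < w a.1), (w b + 1).choose 2 ≤
              ∑ b ∈ Finset.univ.filter (fun b =>
                Sum.elim (fun a : {a : Fin n // w a ≠ 0} => w a) (fun _ : Fin x => k₀) b <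
                Sum.elim (fun a : {a : Fin n // w a ≠ 0} => w a) (fun _ : Fin x => k₀)
                  (Sum.inl a)),
                (Sum.elim (fun a : {a : Fin n // w a ≠ 0} => w a) (fun _ : Fin x => k₀) b
                  + 1).choose 2 := by
            rw [Finset.sum_filter, Finset.sum_filter, Fintype.sum_sum_type]
            refine le_trans ?_ (Nat.le_add_right _ _)
            simp only [Sum.elim_inl]
            rw [← Finset.sum_subtype (Finset.univ.filter fun a => w a ≠ 0) (by simp)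
              (fun b => if w b < w a.1 then (w b + 1).choose 2 else 0)]
            rw [Finset.sum_filter]
            refine Finset.sum_le_sum fun b _ => ?_
            by_cases hb : w b = 0
            · rw [hb]
              split_ifs <;> simp_all
            · rw [if_pos hb]
          omega
        · exact absurd ha (lt_irrefl _))
    rw [min_eq_right (by rw [hA]; omega)] at h
    have h3 := (hTR K (Fin n) ({a : Fin n // w a ≠ 0} ⊕ Fin x) w
      (Sum.elim (fun a : {a : Fin n // w a ≠ 0} => w a) (fun _ : Fin x => k₀))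
      ⟨Sum.inl, Sum.inl_injective⟩ (fun a => le_refl _) S).1 h
    exact h3
  · rw [min_eq_left hNA]
    obtain ⟨U, hU1, hU2, hU3⟩ := choose_subset w (fun a => (w a + 1).choose 2) N hNA
    have hU0 : ∀ a ∈ U, k₀ ≤ w a ∧ w a ≤ m := by
      intro a ha
      rcases hw a with h | h
      · have h1 := hU2 a ha
        simp only [h] at h1
        have : (0 + 1).choose 2 = 0 := rfl
        omega
      · exact h
    have hAU : Aw (fun a : {a // a ∈ U} => w a) = ∑ a ∈ U, (w a + 1).choose 2 := by
      unfold Aw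
      exact (Finset.sum_subtype U (fun _ => Iff.rfl) (fun a => (w a + 1).choose 2)).symm
    have hfil : ∀ κ : ℕ, ∑ b ∈ (Finset.univ : Finset {a // a ∈ U}).filter (fun b => w b.1 < κ),
        (w b.1 + 1).choose 2 = ∑ b ∈ U.filter (fun b => w b < κ), (w b + 1).choose 2 := by
      intro κ
      rw [Finset.sum_filter, Finset.sum_filter]
      exact (Finset.sum_subtype U (fun _ => Iff.rfl)
        (fun a => if w a < κ then (w a + 1).choose 2 else 0)).symm
    have hkey : ∀ a ∈ U, k₀ < w a → w a * (w a + 1) * (w a + 2) + q ≤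
        2 * ∑ b ∈ U.filter (fun b => w b < w a), (w b + 1).choose 2 := by
      intro a ha hka
      have h1 := hcnd a hka
      have h2 := hU3 a ha
      have h3 := R4h.two_choose (w a)
      have h4 : w a * (w a + 1) * (w a + 3) = w a * (w a + 1) * (w a + 2) + w a * (w a + 1) := by
        ring
      omega
    have hwin : 2 * ∑ a ∈ U, (w a + 1).choose 2 < 2 * N + q := by
      rcases Finset.eq_empty_or_nonempty U with h | h
      · rw [h, Finset.sum_empty]
        omega
      · obtain ⟨a, ha, hamin⟩ := Finset.exists_min_image U w h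
        rcases Nat.lt_or_ge k₀ (w a) with h1 | h1
        · have h2 := hkey a ha h1
          have h3 : U.filter (fun b => w b < w a) = ∅ := by
            rw [Finset.filter_eq_empty_iff]
            intro b hb
            exact not_lt.2 (hamin b hb)
          rw [h3, Finset.sum_empty] at h2
          omega
        · have h2 := hU2 a ha
          have h3 : w a = k₀ := le_antisymm h1 (hU0 a ha).1
          rw [h3] at h2
          omega
    have h := hR3 K k₀ m hk₀ hkm {a // a ∈ U} (fun a => w a) (fun a => hU0 a.1 a.2) S hStart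
      (by rw [hAU]; omega) (by rw [hAU]; exact hwin) (by
        intro a ha
        have h1 := hkey a.1 a.2 ha
        rw [← hfil] at h1
        exact h1)
    rw [min_eq_left (by rw [hAU]; omega)] at h
    have h3 := (hTR K {a // a ∈ U} (Fin n) (fun a => w a) w
      ⟨fun a => (a.1.1 : Fin n), fun a b hab => Subtype.ext (Subtype.ext hab)⟩
      (fun a => le_refl _) S).2 _ h
    exact h3

end Pool.Agent.W609
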