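import Mathlib
import Pool.Agent.H15.G.R_seed8.W609.Gen

set_option autoImplicit false

/-!
# One point of arbitrary multiplicity
-/

namespace Pool.Agent.W609

open Polynomial Pool.Agent.H932R2 Pool.Agent.H932R3 Pool.Agent.H932R7

variable {K : Type} [Field K]

theorem cast_dvd {M l i : ℕ} {p : K[X]} (h : (X : K[X]) ^ (M - l) ∣ p) (hi : i + l < M) :
    p.coeff i = 0 := by
  rw [X_pow_dvd_iff] at h
  exact h i (by omega)

theorem mem_trap {M k : ℕ} {f : K[X][X]} (hf : f ∈ mspan K (Tset (M + k)))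
    (h0 : f ∈ cIdeal (fun _ : Fin 1 => (0 : K)) 0 M) :
    f ∈ mspan K (↑(trapF M k) : Set (ℕ × ℕ)) := by
  rw [BLOCKh.mem_mspan_coeff] at hf ⊢
  intro i l hil
  have h1 := hf i l hil
  rw [mem_Tset] at h1
  rw [coe_trapF]
  by_cases h2 : i + l < M
  · exfalso
    have h3 := mem_cIdeal_iff_sh.1 h0 l (by omega)
    rw [rootPoly_const, pow_one, sh_zero_zero, C_0, sub_zero] at h3
    exact hil (cast_dvd h3 h2)
  · exact ⟨by simpa using h2, h1⟩

theorem of_mem_cons {n : ℕ} {M : ℕ} {w : Fin n → ℕ} {c : Fin n → K} {γ : Fin n → K[X]}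
    {f : K[X][X]}
    (hf : f ∈ vIdeal 1 (Fin.cons M w : Fin (n + 1) → ℕ) (Fin.cons 0 c) (Fin.cons 0 γ)) :
    f ∈ cIdeal (fun _ : Fin 1 => (0 : K)) 0 M ∧ f ∈ vIdeal 1 w c γ := by
  unfold vIdeal at hf ⊢
  rw [Ideal.mem_iInf] at hf ⊢
  refine ⟨?_, fun a => ?_⟩
  · have h := hf 0
    simpa only [Fin.cons_zero] using h
  · have h := hf a.succ
    simpa only [Fin.cons_succ] using h

/-- Adding a point of multiplicity `M`. -/
theorem big_point {n M k N : ℕ} {w : Fin n → ℕ}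
    (h : RkS (PF K w) (↑(trapF M k) : Set (ℕ × ℕ)) N) :
    RkS (PF K (Fin.cons M w : Fin (n + 1) → ℕ)) (Tset (M + k)) (N + (M + 1).choose 2) := by
  obtain ⟨J, ⟨c, γ, rfl⟩, hR⟩ := h
  refine ⟨_, ⟨Fin.cons 0 c, Fin.cons 0 γ, rfl⟩, ?_⟩
  rw [← coe_Tfin, T_RK]
  rw [T_RK] at hR
  have hle : mspan K (↑(Tfin (M + k)) : Set (ℕ × ℕ)) ⊓ Submodule.restrictScalars K
      (vIdeal 1 (Fin.cons M w : Fin (n + 1) → ℕ) (Fin.cons 0 c) (Fin.cons 0 γ)) ≤
      mspan K (↑(trapF M k) : Set (ℕ × ℕ)) ⊓ Submodule.restrictScalars K (vIdeal 1 w c γ) := by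
    intro f hf
    rw [Submodule.mem_inf, Submodule.restrictScalars_mem] at hf ⊢
    rw [coe_Tfin] at hf
    have h1 := of_mem_cons hf.2
    exact ⟨mem_trap hf.1 h1.1, h1.2⟩
  have hfin : Module.Finite K ↥(mspan K (↑(trapF M k) : Set (ℕ × ℕ))) := by
    refine Module.Finite.iff_fg.2 (Submodule.fg_span ?_)
    exact ((trapF M k).finite_toSet).image _
  have hfin2 : Module.Finite K ↥(mspan K (↑(trapF M k) : Set (ℕ × ℕ)) ⊓
      Submodule.restrictScalars K (vIdeal 1 w c γ)) :=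
    Submodule.finiteDimensional_of_le inf_le_left
  have h1 := Submodule.finrank_mono hle
  have h2 := card_trapF M k
  have h3 := card_Tfin (M + k)
  have h4 := R4h.two_choose M
  have h5 : (M + k + 1) * (M + k + 2) = (k + 1) * (k + 2 * M + 2) + M * (M + 1) := by ring
  omega

end Pool.Agent.W609
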