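import Mathlib
import Pool.Agent.H15.G.R_seed8.W609.Big

set_option autoImplicit false

/-!
# From ranks to general points
-/

namespace Pool.Agent.W609

open Polynomial Pool.Agent.H932R2 Pool.Agent.H932R3 Pool.Agent.H932R7

/-- From ranks to forms. -/
theorem fin_abs (L : Type) [Field L] [CharZero L] {n : ℕ} (v : Fin n → ℕ) (A2 W : ℕ)
    (G : ℕ → Prop) (hmono : ∀ a b, a ≤ b → G a → G b) (hG : ∃ d, G d)
    (hI : ∀ d, G d → A2 + W ≤ (d + 2).choose 2 →
      RkS (PF ℚ v) (Tset d) (min ((d + 2).choose 2) (Aw v)))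
    (hF : ∀ d, G d → (d + 2).choose 2 + W ≤ Aw v →
      RkS (PF ℚ v) (Tset d) ((d + 2).choose 2)) :
    ∃ F : MvPolynomial (Fin n × Fin 2) ℚ, F ≠ 0 ∧ ∀ P : Fin n → Fin 2 → L,
      MvPolynomial.aeval (fun ij : Fin n × Fin 2 => P ij.1 ij.2) F ≠ 0 →
        ∀ d : ℕ, ((G d ∧ A2 + W ≤ (d + 2).choose 2) ∨
          ∃ e, d ≤ e ∧ G e ∧ (e + 2).choose 2 + W ≤ Aw v) → ExpDim L v P d := by
  classical
  have hcm : ∀ {a b : ℕ}, a ≤ b → (a + 2).choose 2 ≤ (b + 2).choose 2 := fun h =>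
    Nat.choose_le_choose 2 (by omega)
  -- the first degree
  have hex : ∃ d, G d ∧ A2 + W ≤ (d + 2).choose 2 := by
    obtain ⟨X, hX⟩ := hG
    refine ⟨X + (A2 + W), hmono _ _ (by omega) hX, ?_⟩
    have h1 := H932R7.two_choose (X + (A2 + W))
    nlinarith
  obtain ⟨h0a, h0b⟩ := Nat.find_spec hex
  obtain ⟨d0, hd0⟩ : ∃ d0, d0 = Nat.find hex := ⟨_, rfl⟩
  rw [← hd0] at h0a h0b
  have hrank : ∀ d, d0 ≤ d → RkS (PF ℚ v) (Tset d) (min ((d + 2).choose 2) (Aw v)) :=
    fun d hd => hI d (hmono _ _ hd h0a) (h0b.trans (hcm hd))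
  have hex2 : ∃ d, d0 ≤ d ∧ Aw v ≤ (d + 2).choose 2 := by
    refine ⟨d0 + Aw v, by omega, ?_⟩
    have h1 := H932R7.two_choose (d0 + Aw v)
    nlinarith
  obtain ⟨hfa, hfb⟩ := Nat.find_spec hex2
  have hfmin := fun d => Nat.find_min hex2 (m := d)
  obtain ⟨f, hf⟩ : ∃ f, f = Nat.find hex2 := ⟨_, rfl⟩
  rw [← hf] at hfa hfb hfmin
  have hr1 := hrank f hfa
  rw [min_eq_right hfb] at hr1
  obtain ⟨F1, hF1, hF1'⟩ := exp_of_indep (L := L) T_HOP hr1
  obtain ⟨F3, hF3, hF3'⟩ : ∃ F : MvPolynomial (Fin n × Fin 2) ℚ, F ≠ 0 ∧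
      ∀ P : Fin n → Fin 2 → L,
      MvPolynomial.aeval (fun ij : Fin n × Fin 2 => P ij.1 ij.2) F ≠ 0 →
        ∀ d : ℕ, d0 < f → d < f → ExpDim L v P d := by
    rcases Nat.lt_or_ge d0 f with h | h
    · have h1 := hrank (f - 1) (by omega)
      have h2 := hfmin (f - 1) (by omega)
      have h3 : (f - 1 + 2).choose 2 < Aw v := by
        by_contra h4
        exact h2 ⟨by omega, by omega⟩
      rw [min_eq_left h3.le, ← card_Tfin'] at h1
      obtain ⟨F, hF, hF'⟩ := exp_of_full (L := L) T_HOP h1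
      exact ⟨F, hF, fun P hP d _ hd => hF' P hP d (by omega)⟩
    · exact ⟨1, one_ne_zero, fun P _ d h1 _ => absurd h1 (by omega)⟩
  -- the last degree on the other side
  obtain ⟨F2, hF2, hF2'⟩ : ∃ F2 : MvPolynomial (Fin n × Fin 2) ℚ, F2 ≠ 0 ∧
      ∀ P : Fin n → Fin 2 → L,
      MvPolynomial.aeval (fun ij : Fin n × Fin 2 => P ij.1 ij.2) F2 ≠ 0 →
      ∀ d, G d → (d + 2).choose 2 + W ≤ Aw v → ∀ d' ≤ d, ExpDim L v P d' := by
    by_cases hex : ∃ d, G d ∧ (d + 2).choose 2 + W ≤ Aw v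
    · have hle : ∀ e : ℕ, (e + 2).choose 2 + W ≤ Aw v → e ≤ Aw v := by
        intro e he
        have h1 := H932R7.two_choose e
        nlinarith
      obtain ⟨d1, hd1⟩ := hex
      let P : ℕ → Prop := fun d => G d ∧ (d + 2).choose 2 + W ≤ Aw v
      obtain ⟨e, he⟩ : ∃ e, e = Nat.findGreatest P (Aw v) := ⟨_, rfl⟩
      have hPe : P e := by
        rw [he]
        exact Nat.findGreatest_spec (P := P) (hle d1 hd1.2) hd1
      have hrk2 := hF e hPe.1 hPe.2
      rw [← card_Tfin'] at hrk2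
      obtain ⟨F2, hF2, hF2'⟩ := exp_of_full (L := L) T_HOP hrk2
      refine ⟨F2, hF2, fun Q hQ d h1 h2 d' hd' => hF2' Q hQ d' (hd'.trans ?_)⟩
      rw [he]
      exact Nat.le_findGreatest (P := P) (hle d h2) ⟨h1, h2⟩
    · refine ⟨1, one_ne_zero, fun P _ d h1 h2 => ?_⟩
      exact absurd ⟨d, h1, h2⟩ hex
  refine ⟨F1 * F2 * F3, mul_ne_zero (mul_ne_zero hF1 hF2) hF3, fun P hP d hd => ?_⟩
  rw [map_mul, map_mul] at hP
  have hP3 := right_ne_zero_of_mul hP
  have hP1 := left_ne_zero_of_mul (left_ne_zero_of_mul hP)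
  have hP2 := right_ne_zero_of_mul (left_ne_zero_of_mul hP)
  rcases hd with ⟨h1, h2⟩ | ⟨e, h1, h2, h3⟩
  · have h3 : d0 ≤ d := by
      rw [hd0]
      exact Nat.find_min' hex ⟨h1, h2⟩
    rcases Nat.lt_or_ge d f with h | h
    · exact hF3' P hP3 d (by omega) h
    · exact hF1' P hP1 d h
  · exact hF2' P hP2 e h2 h3 d h1

theorem Aw_cons {n : ℕ} (M : ℕ) (w : Fin n → ℕ) :
    Aw (Fin.cons M w : Fin (n + 1) → ℕ) = (M + 1).choose 2 + Aw w := by
  unfold Aw
  rw [Fin.sum_univ_succ]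
  simp only [Fin.cons_zero, Fin.cons_succ]

/-- The good degrees. -/
def Gd (M m d : ℕ) : Prop := M + 2 * m + 1 ≤ d ∧ 27 * (m + 4) ^ 3 + M * (M + 1) ≤ (d + 1) * (d + 2)

theorem Gd_mono {M m a b : ℕ} (h : a ≤ b) (ha : Gd M m a) : Gd M m b :=
  ⟨ha.1.trans h, ha.2.trans (Nat.mul_le_mul (by omega) (by omega))⟩

theorem Gd_ex (M m : ℕ) : ∃ d, Gd M m d := by
  obtain ⟨X, hX⟩ : ∃ X, X = 27 * (m + 4) ^ 3 + M * (M + 1) := ⟨_, rfl⟩
  refine ⟨X + M + 2 * m + 1, by omega, ?_⟩
  rw [← hX]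
  exact le_trans (by omega : X ≤ X + M + 2 * m + 1 + 1) (Nat.le_mul_of_pos_right _ (by omega))

theorem w_le (m : ℕ) : 4 * (2 * (m + 1).choose 3) ≤ 27 * (m + 4) ^ 3 := by
  have h1 := H932R7.three_choose m
  nlinarith

theorem key3 {M m A W d : ℕ} (hm : 0 < m) (hW : W ≤ 2 * (m + 1).choose 3)
    (hA : 27 * (m + 4) ^ 3 ≤ A) (hd : M + 2 * m + 1 ≤ d)
    (h : (d + 2).choose 2 + W ≤ (M + 1).choose 2 + A) :
    ∃ e, d ≤ e ∧ Gd M m e ∧ (e + 2).choose 2 + W ≤ (M + 1).choose 2 + A := by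
  classical
  obtain ⟨A', hA'⟩ : ∃ A', A' = (M + 1).choose 2 + A := ⟨_, rfl⟩
  rw [← hA'] at h ⊢
  have hle : ∀ e : ℕ, (e + 2).choose 2 + W ≤ A' → e ≤ A' := by
    intro e he
    have h1 := H932R7.two_choose e
    nlinarith
  let P : ℕ → Prop := fun e => (e + 2).choose 2 + W ≤ A'
  obtain ⟨e, he⟩ : ∃ e, e = Nat.findGreatest P A' := ⟨_, rfl⟩
  have hPe : P e := by
    rw [he]
    exact Nat.findGreatest_spec (P := P) (hle d h) h
  have hde : d ≤ e := by
    rw [he]
    exact Nat.le_findGreatest (hle d h) h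
  have hnot : ¬ P (e + 1) := by
    intro h1
    have h2 : e + 1 ≤ Nat.findGreatest P A' := Nat.le_findGreatest (hle _ h1) h1
    omega
  refine ⟨e, hde, ⟨by omega, ?_⟩, hPe⟩
  have hnot' : A' < (e + 1 + 2).choose 2 + W := not_le.1 hnot
  have h1 := H932R7.two_choose (e + 1)
  have h2 := w_le m
  have h3 := R4h.two_choose M
  by_contra hcon
  push Not at hcon
  obtain ⟨κ, hκ⟩ : ∃ κ, e = M + κ := ⟨e - M, by omega⟩
  have hκ3 : 3 ≤ κ := by omega
  have h4 : (e + 1 + 1) * (e + 1 + 2) = (e + 1) * (e + 2) + 2 * (e + 2) := by ring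
  have h5 : (e + 1) * (e + 2) = (κ + 1) * (κ + 2 * M + 2) + M * (M + 1) := by
    rw [hκ]
    ring
  have h6 : 4 * (e + 2) ≤ (κ + 1) * (κ + 2 * M + 2) := Nat.mul_le_mul (by omega) (by omega)
  omega

theorem key4 {M m A W d : ℕ} (hW : W ≤ 2 * (m + 1).choose 3) (hA : 27 * (m + 4) ^ 3 ≤ A)
    (hd : M + 2 * m + 1 ≤ d) (hG : ¬ Gd M m d) :
    (d + 2).choose 2 + W ≤ (M + 1).choose 2 + A := by
  have h1 := H932R7.two_choose d
  have h2 := w_le m
  have h3 := R4h.two_choose M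
  have h4 : (d + 1) * (d + 2) < 27 * (m + 4) ^ 3 + M * (M + 1) := by
    by_contra h
    exact hG ⟨hd, not_lt.1 h⟩
  omega

/-- A good degree gives a set of monomials which can be reached. -/
theorem Gd.start {M m d : ℕ} (hm : 0 < m) (h : Gd M m d) :
    StartOK ℚ (trapF M (d - M)) m ∧ M + (d - M) = d ∧
      (trapF M (d - M)).card + (M + 1).choose 2 = (d + 2).choose 2 := by
  obtain ⟨h1, h2⟩ := h
  obtain ⟨κ, rfl⟩ : ∃ κ, d = M + κ := ⟨d - M, by omega⟩
  rw [Nat.add_sub_cancel_left]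
  have h5 : (M + κ + 1) * (M + κ + 2) = (κ + 1) * (κ + 2 * M + 2) + M * (M + 1) := by ring
  refine ⟨startOK_trap ℚ hm (by omega) (by omega), rfl, ?_⟩
  have h6 := card_trapF M κ
  have h7 := R4h.two_choose M
  have h8 := H932R7.two_choose (M + κ)
  omega

/-- One point of arbitrary multiplicity. -/
theorem one_big (L : Type) [Field L] [CharZero L] {n : ℕ} {w : Fin n → ℕ} {M m k : ℕ}
    (hk : 0 < k) (hkm : k ≤ m) (hw : ∀ a, w a ≤ m)
    (hfreq : ∀ i, k < w i → 2 * (w i * (w i + 1) * (w i + 2)) ≤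
      ∑ j ∈ Finset.univ.filter (fun j => min 2 k ≤ w j ∧ w j < w i), w j * (w j + 1)) :
    ∃ F : MvPolynomial (Fin (n + 1) × Fin 2) ℚ, F ≠ 0 ∧ ∀ P : Fin (n + 1) → Fin 2 → L,
      MvPolynomial.aeval (fun ij : Fin (n + 1) × Fin 2 => P ij.1 ij.2) F ≠ 0 →
        ∀ d : ℕ, M + 2 * m + 1 ≤ d →
          (27 * (m + 4) ^ 3 + M * (M + 1) ≤ (d + 1) * (d + 2) ∨ 27 * (m + 4) ^ 3 ≤ Aw w) →
          ((d + 2).choose 2 + 2 * (k + 1).choose 3 ≤ (M + 1).choose 2 + Aw w ∨
            (M + 1).choose 2 + Aw (w2 w) + 2 * (k + 1).choose 3 ≤ (d + 2).choose 2 ∨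
            ∀ i, w i ≤ 1 ∨ k ≤ w i) →
          ExpDim L (Fin.cons M w : Fin (n + 1) → ℕ) P d := by
  classical
  have hm : 0 < m := by omega
  have hnum : ∀ x, k < x → x * (x + 1) * (x + 3) + k * (k + 1) ≤ 2 * (x * (x + 1) * (x + 2)) :=
    fun x hx => le_trans (by omega) (num_le hx)
  have hAc := Aw_cons M w
  by_cases h3 : ∀ i, w i ≤ 1 ∨ k ≤ w i
  · have hR : ∀ d, Gd M m d →
        RkS (PF ℚ (Fin.cons M w : Fin (n + 1) → ℕ)) (Tset d)
          (min ((d + 2).choose 2) (Aw (Fin.cons M w : Fin (n + 1) → ℕ))) := by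
      intro d hG
      obtain ⟨hS, hMd, hcd⟩ := hG.start hm
      have hR1 : RkS (PF ℚ w) (↑(trapF M (d - M)) : Set (ℕ × ℕ))
          (min (trapF M (d - M)).card (Aw w)) := by
        rcases Nat.lt_or_ge k 2 with hk2 | hk2
        · refine T_R42S (T_R32S T_STAB (T_X2 T_STAB T_CH t_blk T_SPLIT)) (T_TR T_RK) ℚ k m hk hkm
            n w (fun a => ?_) ?_ _ hS
          · have := hw a
            omega
          · intro a ha
            exact (hnum _ ha).trans ((hfreq a ha).trans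
              (freq_sum w w k (fun _ _ => rfl) a ha))
        · have hw2 : ∀ a, w2 w a = 0 ∨ (k ≤ w2 w a ∧ w2 w a ≤ m) := by
            intro a
            unfold w2
            have h1 := hw a
            have h2 := h3 a
            split_ifs with h4 <;> omega
          have h5 := T_R42S (T_R32S T_STAB (T_X2 T_STAB T_CH t_blk T_SPLIT)) (T_TR T_RK) ℚ k m hk
            hkm n (w2 w) hw2 (by
            intro a ha
            have hwa : w2 w a = w a := by
              unfold w2 at ha ⊢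
              split_ifs at ha ⊢ with h4
              · omega
              · rfl
            have h6 := freq_sum w (w2 w) k (fun b hb => by
              unfold w2
              rw [if_neg (by omega)]) a (by omega)
            rw [hwa] at ha h6 ⊢
            exact (hnum _ ha).trans ((hfreq a ha).trans h6)) _ hS
          have h6 := rk_simple T_RK _ h5
          have hA := Aw_w2 w
          have h7 : min (trapF M (d - M)).card (min (trapF M (d - M)).card (Aw (w2 w)) +
              (Finset.univ.filter fun a => w a = 1).card) =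
                min (trapF M (d - M)).card (Aw w) := by
            omega
          rw [h7] at h6
          exact h6
      have hR2 := big_point hR1
      rw [hMd] at hR2
      have h8 : min (trapF M (d - M)).card (Aw w) + (M + 1).choose 2 =
          min ((d + 2).choose 2) (Aw (Fin.cons M w : Fin (n + 1) → ℕ)) := by
        rw [hAc]
        omega
      rw [h8] at hR2
      exact hR2
    obtain ⟨F, hF, hF'⟩ := fin_abs L (Fin.cons M w : Fin (n + 1) → ℕ) 0 0 (Gd M m)
      (fun a b hab => Gd_mono hab) (Gd_ex M m) (fun d hG _ => hR d hG) (fun d hG hd => by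
        have h9 := hR d hG
        rwa [min_eq_left (by omega)] at h9)
    refine ⟨F, hF, fun P hP d hd hbig _ => hF' P hP d ?_⟩
    by_cases hG : Gd M m d
    · exact Or.inl ⟨hG, by omega⟩
    · right
      have hA : 27 * (m + 4) ^ 3 ≤ Aw w := by
        rcases hbig with h | h
        · exact absurd ⟨hd, h⟩ hG
        · exact h
      rw [hAc]
      exact key3 hm (Nat.zero_le _) hA hd (key4 (Nat.zero_le _) hA hd hG)
  · have hk2 : 2 ≤ k := by
      by_contra hlt
      exact h3 fun i => by omega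
    have hwle : ∀ a, w2 w a ≤ m := by
      intro a
      unfold w2
      split_ifs
      · exact Nat.zero_le _
      · exact hw a
    have hc1 : Cnq w k 3 (4 * (k + 1).choose 3 + k * (k + 1)) := fun a ha =>
      (num_le ha).trans ((hfreq a ha).trans (freq_sum w w k (fun _ _ => rfl) a ha))
    have hc2 : Cnq (w2 w) k 3 (4 * (k + 1).choose 3 + k * (k + 1)) := by
      intro a ha
      have hwa : w2 w a = w a := by
        unfold w2 at ha ⊢
        split_ifs at ha ⊢ with h4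
        · omega
        · rfl
      have h6 := freq_sum w (w2 w) k (fun b hb => by
        unfold w2
        rw [if_neg (by omega)]) a (by omega)
      rw [hwa] at ha h6 ⊢
      exact (num_le ha).trans ((hfreq a ha).trans h6)
    have hWm : 2 * (k + 1).choose 3 ≤ 2 * (m + 1).choose 3 :=
      Nat.mul_le_mul_left _ (Nat.choose_le_choose 3 (by omega))
    obtain ⟨F, hF, hF'⟩ := fin_abs L (Fin.cons M w : Fin (n + 1) → ℕ)
      ((M + 1).choose 2 + Aw (w2 w)) (2 * (k + 1).choose 3) (Gd M m)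
      (fun a b hab => Gd_mono hab) (Gd_ex M m)
      (fun d hG hd => by
        obtain ⟨hS, hMd, hcd⟩ := hG.start hm
        have h1 := (rank_thrS2 T_STAB t_x3 (T_TR T_RK) ℚ k m hk hkm n (w2 w) hwle
          (trapF M (d - M)) hS hc2).1 (by omega)
        have h6 := rk_simple T_RK _ h1
        have hA := Aw_w2 w
        rw [← hA] at h6
        have hR2 := big_point h6
        rw [hMd] at hR2
        have h8 : min (trapF M (d - M)).card (Aw w) + (M + 1).choose 2 =
            min ((d + 2).choose 2) (Aw (Fin.cons M w : Fin (n + 1) → ℕ)) := by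
          rw [hAc]
          omega
        rw [h8] at hR2
        exact hR2)
      (fun d hG hd => by
        obtain ⟨hS, hMd, hcd⟩ := hG.start hm
        rw [hAc] at hd
        have h1 := (rank_thrS2 T_STAB t_x3 (T_TR T_RK) ℚ k m hk hkm n w hw
          (trapF M (d - M)) hS hc1).2 (by omega)
        have hR2 := big_point h1
        rw [hMd, hcd] at hR2
        exact hR2)
    refine ⟨F, hF, fun P hP d hd hbig hwin => hF' P hP d ?_⟩
    have hlow : 27 * (m + 4) ^ 3 ≤ Aw w → (d + 2).choose 2 + 2 * (k + 1).choose 3 ≤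
        (M + 1).choose 2 + Aw w → ∃ e, d ≤ e ∧ Gd M m e ∧
          (e + 2).choose 2 + 2 * (k + 1).choose 3 ≤ Aw (Fin.cons M w : Fin (n + 1) → ℕ) := by
      intro hA h
      rw [hAc]
      exact key3 hm hWm hA hd h
    by_cases hG : Gd M m d
    · rcases hwin with h | h | h
      · exact Or.inr ⟨d, le_rfl, hG, by rw [hAc]; exact h⟩
      · exact Or.inl ⟨hG, h⟩
      · exact absurd h h3
    · right
      have hA : 27 * (m + 4) ^ 3 ≤ Aw w := by
        rcases hbig with h | h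
        · exact absurd ⟨hd, h⟩ hG
        · exact h
      exact hlow hA (key4 hWm hA hd hG)

end Pool.Agent.W609
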